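import Pool.Agent.Lib.MP_935088_an.EX.All

/-!
# MP_935088_an: script-L1 spaces complemented in their bidual which are isomorphic to no L1(mu)

The known reduction says that a script-L1 space which is isomorphic to a dual space is complemented
in its bidual (equivalently, complemented in a dual space), hence complemented in some L1(mu).
We show that this property alone does not imply that the space is isomorphic to an L1(mu):
there is a complemented subspace `X` of `L1[0,1]` such that all the sums `l1(Γ; X)`
(non-separable for uncountable `Γ`) are script-L1 spaces, complemented in their biduals, and isomorphic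
to no `L1(mu)`.

The space: let `A` be the number operator on `L1` of the cube `{0,1}^ℕ`, identified with `[0,1]` by binary digits;
`X` is the real interpolation space `(L1, D(A))_{1/2,1}`, realised as a complemented subspace of the
`l1`-sum of countably many copies of `L1`.
-/

set_option autoImplicit false

open MeasureTheory

namespace Pool.Agent.Results.MP_935088_an.BidualComplemented

/-- `Y` is a script-L1 space (in the form of the frozen statement): for some constant `l`, every
finite-dimensional subspace is contained in the span of vectors `x 1, …, x n` which satisfy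
`‖∑ a i x i‖ ≤ ∑ |a i| ≤ l ‖∑ a i x i‖` for all scalars. -/
def IsScriptL1 (Y : Type) [NormedAddCommGroup Y] [NormedSpace ℝ Y] : Prop :=
  ∃ l : ℝ, ∀ F : Submodule ℝ Y, FiniteDimensional ℝ F →
    ∃ (n : ℕ) (x : Fin n → Y), F ≤ Submodule.span ℝ (Set.range x) ∧
      ∀ a : Fin n → ℝ, ‖∑ i, a i • x i‖ ≤ ∑ i, |a i| ∧
        ∑ i, |a i| ≤ l * ‖∑ i, a i • x i‖

/-- `Y` is complemented in its bidual: there is a bounded linear map `p : Y** → Y` with
`p (ι y) = y` for the canonical embedding `ι`. -/
def ComplementedInBidual (Y : Type) [NormedAddCommGroup Y] [NormedSpace ℝ Y] : Prop :=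
  ∃ p : StrongDual ℝ (StrongDual ℝ Y) →L[ℝ] Y,
    ∀ y, p (NormedSpace.inclusionInDoubleDual ℝ Y y) = y

/-- `Y` is isomorphic to `L1(mu)` for some measure `mu` on some measurable space. -/
def IsomorphicToSomeL1 (Y : Type) [NormedAddCommGroup Y] [NormedSpace ℝ Y] : Prop :=
  ∃ (Ω : Type) (m : MeasurableSpace Ω) (μ : @Measure Ω m), Nonempty (Y ≃L[ℝ] Lp ℝ 1 μ)

/-- Real `L1[0,1]`. -/
abbrev L1I : Type := Lp ℝ 1 (volume.restrict (Set.Icc (0 : ℝ) 1))

/-- The `ℓ₁`-sum of copies of `X` indexed by `Γ`. -/
abbrev L1Sum (Γ X : Type) [NormedAddCommGroup X] : Type := lp (fun _ : Γ => X) 1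

/-- The properties of the sum `l1(Γ; X)`: it is complete, a script-L1 space, complemented in its
bidual, not separable if `Γ` is uncountable, and isomorphic to no `L1(mu)`. -/
def SumProperties (Γ X : Type) [NormedAddCommGroup X] [NormedSpace ℝ X] : Prop :=
  CompleteSpace (L1Sum Γ X) ∧ IsScriptL1 (L1Sum Γ X) ∧ ComplementedInBidual (L1Sum Γ X) ∧
    (Uncountable Γ → ¬ TopologicalSpace.SeparableSpace (L1Sum Γ X)) ∧
    ¬ IsomorphicToSomeL1 (L1Sum Γ X)

/-- The `ℓ₁`-sum over a one point set. -/
theorem one_point (X : Type) [NormedAddCommGroup X] [NormedSpace ℝ X] :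
    Nonempty (lp (fun _ : Unit => X) 1 ≃L[ℝ] X) := by
  classical
  have hn : ∀ F : lp (fun _ : Unit => X) 1, ‖F‖ = ‖F ()‖ := by
    intro F
    have : F = lp.single 1 () (F ()) := by
      ext i
      cases i
      simp
    conv_lhs => rw [this]
    exact lp.norm_single (E := fun _ : Unit => X) one_pos () _
  let e : lp (fun _ : Unit => X) 1 ≃ₗ[ℝ] X :=
    { toFun := fun F => F ()
      map_add' := fun F G => rfl
      map_smul' := fun c F => rfl
      invFun := fun x => lp.single 1 () x
      left_inv := fun F => by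
        ext i
        cases i
        simp
      right_inv := fun x => by simp }
  exact ⟨(LinearIsometryEquiv.mk e (fun F => (hn F).symm)).toContinuousLinearEquiv⟩

theorem result :
    ∃ X : Submodule ℝ L1I, X.ClosedComplemented ∧ ¬ FiniteDimensional ℝ X ∧
      ¬ IsomorphicToSomeL1 X ∧ ∀ (Γ : Type) [Nonempty Γ], SumProperties Γ X := by
  obtain ⟨X, hX, hfin, h⟩ := Pool.Agent.Exo.t_Main
  have hcl : IsClosed (X : Set (Lp ℝ 1 (volume.restrict (Set.Icc (0 : ℝ) 1)))) := hX.isClosed
  have : CompleteSpace X := hcl.completeSpace_coe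
  refine ⟨X, hX, hfin, ?_, ?_⟩
  · rintro ⟨Ω, m, μ, ⟨Θ⟩⟩
    obtain ⟨e⟩ := one_point X
    exact ((h Unit).2.2.2 Ω m μ).false (e.trans Θ)
  · intro Γ _
    refine ⟨inferInstance, (h Γ).1, (h Γ).2.1, (h Γ).2.2.1, ?_⟩
    rintro ⟨Ω, m, μ, ⟨Θ⟩⟩
    exact ((h Γ).2.2.2 Ω m μ).false Θ

end Pool.Agent.Results.MP_935088_an.BidualComplemented
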